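import Pool.Agent.K3h83.IN.Stm6

/-!
# Intertwining maps: the level of a group of invertible order
-/

set_option autoImplicit false

open scoped BigOperators Classical

noncomputable section

namespace Pool.Agent.K3h3.CY

open Pool.Agent.K3h83.IN

section irr

variable {F G V : Type} [Field F] [Group G] [AddCommGroup V] [Module F V]

theorem rmul (ρ : Representation F G V) (g h : G) (v : V) : ρ (g * h) v = ρ g (ρ h v) := by
  rw [map_mul]; rfl

theorem rmulc (ρ : Representation F G V) (g h : G) : ρ (g * h) = ρ g ∘ₗ ρ h := by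
  rw [map_mul]; rfl

theorem rinv1 (ρ : Representation F G V) (g : G) (v : V) : ρ g⁻¹ (ρ g v) = v := by
  rw [← rmul, inv_mul_cancel, map_one]; rfl

theorem rinv2 (ρ : Representation F G V) (g : G) (v : V) : ρ g (ρ g⁻¹ v) = v := by
  rw [← rmul, mul_inv_cancel, map_one]; rfl

/-- irreducibility in terms of submodules -/
theorem irr_iff (ρ : Representation F G V) : ρ.IsIrreducible ↔
    Nontrivial V ∧ ∀ S : Submodule F V, (∀ (g : G), ∀ v ∈ S, ρ g v ∈ S) → S = ⊥ ∨ S = ⊤ := by
  constructor
  · intro h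
    have h' : IsSimpleOrder (Subrepresentation ρ) := h
    constructor
    · by_contra hn
      rw [not_nontrivial_iff_subsingleton] at hn
      have hne : (⊥ : Subrepresentation ρ) ≠ ⊤ := bot_ne_top
      apply hne
      apply Subrepresentation.toSubmodule_injective
      exact Subsingleton.elim _ _
    · intro S hS
      rcases eq_bot_or_eq_top (⟨S, fun g v hv => hS g v hv⟩ : Subrepresentation ρ) with h1 | h1
      · left
        exact congrArg Subrepresentation.toSubmodule h1
      · right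
        exact congrArg Subrepresentation.toSubmodule h1
  · rintro ⟨h1, h2⟩
    have hnt : Nontrivial (Subrepresentation ρ) := by
      refine ⟨⟨⊥, ⊤, fun h => ?_⟩⟩
      have := congrArg Subrepresentation.toSubmodule h
      exact bot_ne_top (α := Submodule F V) this
    show IsSimpleOrder (Subrepresentation ρ)
    refine ⟨fun S => ?_⟩
    rcases h2 S.toSubmodule (fun g v hv => S.apply_mem_toSubmodule g hv) with h3 | h3
    · left
      exact Subrepresentation.toSubmodule_injective h3
    · right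
      exact Subrepresentation.toSubmodule_injective h3

end irr

section MMsec

variable {F H : Type} [Field F] [Group H]
variable {U Y Z : Type} [AddCommGroup U] [Module F U] [AddCommGroup Y] [Module F Y]
  [AddCommGroup Z] [Module F Z]

/-- the intertwining maps -/
def MM (μ : Representation F H U) (σ : Representation F H Y) : Submodule F (U →ₗ[F] Y) where
  carrier := {m | ∀ (h : H) (u : U), m (μ h u) = σ h (m u)}
  add_mem' := by
    intro a b ha hb h u
    rw [LinearMap.add_apply, LinearMap.add_apply, map_add, ha h u, hb h u]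
  zero_mem' := by
    intro h u
    simp
  smul_mem' := by
    intro c a ha h u
    rw [LinearMap.smul_apply, LinearMap.smul_apply, map_smul, ha h u]

theorem mem_MM {μ : Representation F H U} {σ : Representation F H Y} {m : U →ₗ[F] Y} :
    m ∈ MM μ σ ↔ ∀ (h : H) (u : U), m (μ h u) = σ h (m u) := Iff.rfl

theorem comp_mem {μ : Representation F H U} {σ : Representation F H Y} {ζ : Representation F H Z}
    {m : U →ₗ[F] Y} {n : Y →ₗ[F] Z} (hm : m ∈ MM μ σ) (hn : n ∈ MM σ ζ) : n ∘ₗ m ∈ MM μ ζ := by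
  intro h u
  rw [LinearMap.comp_apply, hm h u, hn h, LinearMap.comp_apply]

/-- Schur's lemma -/
theorem schur [IsAlgClosed F] [FiniteDimensional F U] {μ : Representation F H U}
    (hi : μ.IsIrreducible) {T : U →ₗ[F] U} (hc : T ∈ MM μ μ) : ∃ c : F, T = c • 1 := by
  let T' : Representation.IntertwiningMap μ μ :=
    T.intertwiningMap_of_isIntertwiningMap μ μ (fun h v => hc h v)
  obtain ⟨c, hc⟩ :=
    (Representation.IsIrreducible.algebraMap_intertwiningMap_bijective_of_isAlgClosed
      (ρ := μ)).2 T'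
  refine ⟨c, LinearMap.ext fun v => ?_⟩
  have := congrArg (fun S : Representation.IntertwiningMap μ μ => S v) hc
  have h2 : T' v = T v := rfl
  rw [← h2]
  exact this.symm

/-- averaging -/
def av [Fintype H] (μ : Representation F H U) (σ : Representation F H Y) (ξ : U →ₗ[F] Y) :
    U →ₗ[F] Y := ∑ h : H, σ h ∘ₗ ξ ∘ₗ μ h⁻¹

theorem av_mem [Fintype H] (μ : Representation F H U) (σ : Representation F H Y) (ξ : U →ₗ[F] Y) :
    av μ σ ξ ∈ MM μ σ := by
  intro k u
  unfold av
  rw [LinearMap.sum_apply, LinearMap.sum_apply, map_sum]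
  refine Fintype.sum_equiv (Equiv.mulLeft k⁻¹) _ _ fun h => ?_
  simp only [LinearMap.comp_apply, Equiv.coe_mulLeft]
  rw [← rmul, ← rmul, mul_inv_cancel_left, mul_inv_rev, inv_inv]

theorem left_inv [Fintype H] (hH : (Fintype.card H : F) ≠ 0) {μ : Representation F H U}
    {σ : Representation F H Y} (hi : μ.IsIrreducible) {m : U →ₗ[F] Y} (hm : m ∈ MM μ σ)
    (h0 : m ≠ 0) : ∃ n ∈ MM σ μ, n ∘ₗ m = 1 := by
  obtain ⟨-, h2⟩ := (irr_iff μ).1 hi
  have hk : LinearMap.ker m = ⊥ := by
    rcases h2 (LinearMap.ker m) (by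
      intro g v hv
      rw [LinearMap.mem_ker] at hv ⊢
      rw [hm g v, hv, map_zero]) with h3 | h3
    · exact h3
    · exact absurd (LinearMap.ker_eq_top.1 h3) h0
  obtain ⟨l, hl⟩ := LinearMap.exists_leftInverse_of_injective m hk
  refine ⟨(Fintype.card H : F)⁻¹ • av σ μ l, Submodule.smul_mem _ _ (av_mem _ _ _), ?_⟩
  ext u
  rw [LinearMap.comp_apply, LinearMap.smul_apply]
  unfold av
  rw [LinearMap.sum_apply]
  have : ∀ h : H, (μ h ∘ₗ l ∘ₗ σ h⁻¹) (m u) = u := by
    intro h
    rw [LinearMap.comp_apply, LinearMap.comp_apply, ← hm]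
    have : l (m (μ h⁻¹ u)) = μ h⁻¹ u := by
      have := LinearMap.congr_fun hl (μ h⁻¹ u)
      exact this
    rw [this, rinv2]
  rw [Finset.sum_congr rfl fun h _ => this h, Finset.sum_const, Finset.card_univ,
    ← Nat.cast_smul_eq_nsmul F, smul_smul, inv_mul_cancel₀ hH, one_smul]
  rfl

theorem right_inv [Fintype H] (hH : (Fintype.card H : F) ≠ 0) {μ : Representation F H U}
    {σ : Representation F H Y} (hi : μ.IsIrreducible) {n : Y →ₗ[F] U} (hn : n ∈ MM σ μ)
    (h0 : n ≠ 0) : ∃ m ∈ MM μ σ, n ∘ₗ m = 1 := by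
  obtain ⟨-, h2⟩ := (irr_iff μ).1 hi
  have hk : LinearMap.range n = ⊤ := by
    rcases h2 (LinearMap.range n) (by
      rintro g _ ⟨v, rfl⟩
      exact ⟨σ g v, hn g v⟩) with h3 | h3
    · exact absurd (LinearMap.range_eq_bot.1 h3) h0
    · exact h3
  obtain ⟨l, hl⟩ := LinearMap.exists_rightInverse_of_surjective n hk
  refine ⟨(Fintype.card H : F)⁻¹ • av μ σ l, Submodule.smul_mem _ _ (av_mem _ _ _), ?_⟩
  ext u
  rw [LinearMap.comp_apply, LinearMap.smul_apply, map_smul]
  unfold av
  rw [LinearMap.sum_apply, map_sum]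
  have : ∀ h : H, n ((σ h ∘ₗ l ∘ₗ μ h⁻¹) u) = u := by
    intro h
    rw [LinearMap.comp_apply, LinearMap.comp_apply, hn]
    have : n (l (μ h⁻¹ u)) = μ h⁻¹ u := by
      have := LinearMap.congr_fun hl (μ h⁻¹ u)
      exact this
    rw [this, rinv2]
  rw [Finset.sum_congr rfl fun h _ => this h, Finset.sum_const, Finset.card_univ,
    ← Nat.cast_smul_eq_nsmul F, smul_smul, inv_mul_cancel₀ hH, one_smul]
  rfl

/-- every functional on `MM μ σ` is given by an element of `MM σ μ` -/
theorem dual [IsAlgClosed F] [FiniteDimensional F U] [FiniteDimensional F Y] [Fintype H]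
    (hH : (Fintype.card H : F) ≠ 0) {μ : Representation F H U}
    {σ : Representation F H Y} (hi : μ.IsIrreducible) (ℓ : MM μ σ →ₗ[F] F) :
    ∃ n ∈ MM σ μ, ∀ m : MM μ σ, n ∘ₗ (m : U →ₗ[F] Y) = ℓ m • 1 := by
  obtain ⟨h1, -⟩ := (irr_iff μ).1 hi
  obtain ⟨u, hu⟩ := exists_ne (0 : U)
  obtain ⟨lam, hlam⟩ : ∃ lam : Module.Dual F U, lam u = 1 := by
    obtain ⟨l, hl⟩ : ∃ l : Module.Dual F U, l u ≠ 0 := by
      by_contra hcon
      push Not at hcon
      exact hu ((Module.forall_dual_apply_eq_zero_iff F u).1 hcon)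
    exact ⟨(l u)⁻¹ • l, by rw [LinearMap.smul_apply, smul_eq_mul, inv_mul_cancel₀ hl]⟩
  let Ψ : MM μ σ →ₗ[F] Module.Dual F (MM σ μ) :=
    { toFun := fun m =>
        { toFun := fun n => lam (n.1 (m.1 u))
          map_add' := by intro a b; simp
          map_smul' := by intro a b; simp }
      map_add' := by intro a b; ext n; simp
      map_smul' := by intro a b; ext n; simp }
  have hΨ : ∀ (m : MM μ σ) (n : MM σ μ), Ψ m n = lam (n.1 (m.1 u)) := fun m n => rfl
  have key : ∀ (m : MM μ σ) (n : MM σ μ), n.1 ∘ₗ m.1 = (Ψ m n) • 1 := by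
    intro m n
    obtain ⟨c, hc⟩ := schur hi (comp_mem m.2 n.2)
    rw [hc, hΨ]
    have : n.1 (m.1 u) = c • u := by
      have := LinearMap.congr_fun hc u
      exact this
    rw [this, map_smul, hlam, smul_eq_mul, mul_one]
  have hinj : Function.Injective Ψ := by
    rw [injective_iff_map_eq_zero]
    intro m hm
    by_contra h0
    have h0' : m.1 ≠ 0 := fun h => h0 (Subtype.ext h)
    obtain ⟨n, hn, hnm⟩ := left_inv hH hi m.2 h0'
    have h3 := key m ⟨n, hn⟩
    rw [hm] at h3
    simp only [LinearMap.zero_apply, zero_smul] at h3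
    rw [hnm] at h3
    have := LinearMap.congr_fun h3 u
    exact hu this
  obtain ⟨ξ, hξ⟩ := LinearMap.dualMap_surjective_of_injective hinj ℓ
  obtain ⟨n, hn⟩ := (Module.evalEquiv F (MM σ μ)).surjective ξ
  refine ⟨n.1, n.2, fun m => ?_⟩
  rw [key m n]
  congr 1
  rw [← hξ, ← hn]
  rfl

end MMsec

end Pool.Agent.K3h3.CY
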