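import Pool.Agent.K3h3.CY.A

/-!
# Intertwining maps: dual bases and sums over cosets
-/

set_option autoImplicit false

open scoped BigOperators Classical

noncomputable section

namespace Pool.Agent.K3h3.CY

open Pool.Agent.K3h83.IN

section kit

variable {F H : Type} [Field F] [Group H]
variable {U Y Z X : Type} [AddCommGroup U] [Module F U] [AddCommGroup Y] [Module F Y]
  [AddCommGroup Z] [Module F Z] [AddCommGroup X] [Module F X]

/-- dual bases -/
structure Kit (μ : Representation F H U) (σ : Representation F H Y) where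
  k : ℕ
  b : Module.Basis (Fin k) F (MM μ σ)
  n : Fin k → (Y →ₗ[F] U)
  hn : ∀ i, n i ∈ MM σ μ
  dual : ∀ i (m : MM μ σ), n i ∘ₗ (m : U →ₗ[F] Y) = b.repr m i • 1
  eps : ∀ l ∈ MM σ μ, ∑ i, l ∘ₗ (b i : U →ₗ[F] Y) ∘ₗ n i = l

theorem exists_kit [IsAlgClosed F] [FiniteDimensional F U] [FiniteDimensional F Y] [Fintype H]
    (hH : (Fintype.card H : F) ≠ 0) (μ : Representation F H U)
    (σ : Representation F H Y) (hi : μ.IsIrreducible) : Nonempty (Kit μ σ) := by
  let b := Module.finBasis F (MM μ σ)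
  choose n hn hd using fun i => dual hH hi (b.coord i)
  refine ⟨⟨_, b, n, hn, hd, fun l hl => ?_⟩⟩
  by_contra hcon
  have hmem : ∑ i, l ∘ₗ (b i : U →ₗ[F] Y) ∘ₗ n i - l ∈ MM σ μ := by
    refine Submodule.sub_mem _ (Submodule.sum_mem _ fun i _ => ?_) hl
    exact comp_mem (comp_mem (hn i) (b i).2) hl
  obtain ⟨m, hm, h1⟩ := right_inv hH hi hmem (sub_ne_zero.2 hcon)
  have h2 : (∑ i, l ∘ₗ (b i : U →ₗ[F] Y) ∘ₗ n i - l) ∘ₗ m = 0 := by
    ext u
    rw [LinearMap.comp_apply, LinearMap.sub_apply, LinearMap.sum_apply]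
    have h3 : ∀ i, (l ∘ₗ (b i : U →ₗ[F] Y) ∘ₗ n i) (m u) = l ((b.repr ⟨m, hm⟩ i • (b i : U →ₗ[F] Y)) u) := by
      intro i
      rw [LinearMap.comp_apply, LinearMap.comp_apply]
      have := LinearMap.congr_fun (hd i ⟨m, hm⟩) u
      rw [LinearMap.comp_apply] at this
      rw [this, LinearMap.smul_apply, LinearMap.smul_apply, map_smul]
      rfl
    rw [Finset.sum_congr rfl fun i _ => h3 i, ← map_sum, ← LinearMap.sum_apply]
    have h4 : ∑ i, b.repr ⟨m, hm⟩ i • (b i : U →ₗ[F] Y) = m := by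
      have := congrArg Subtype.val (b.sum_repr ⟨m, hm⟩)
      rw [AddSubmonoidClass.coe_finsetSum] at this
      exact this
    rw [h4, sub_self]
    rfl
  rw [h2] at h1
  obtain ⟨hnt, -⟩ := (irr_iff μ).1 hi
  obtain ⟨u, hu⟩ := exists_ne (0 : U)
  exact hu (LinearMap.congr_fun h1 u).symm

variable {μ : Representation F H U} {σ : Representation F H Y} {σ' : Representation F H Z}

/-- extension of a map of multiplicity spaces -/
def Kit.ext (K : Kit μ σ) : (MM μ σ →ₗ[F] MM μ σ') →ₗ[F] (Y →ₗ[F] Z) where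
  toFun θ := ∑ i, (θ (K.b i) : U →ₗ[F] Z) ∘ₗ K.n i
  map_add' := by
    intro a b
    rw [← Finset.sum_add_distrib]
    refine Finset.sum_congr rfl fun i _ => ?_
    rfl
  map_smul' := by
    intro a b
    rw [Finset.smul_sum]
    refine Finset.sum_congr rfl fun i _ => ?_
    rfl

theorem Kit.ext_def (K : Kit μ σ) (θ : MM μ σ →ₗ[F] MM μ σ') :
    K.ext θ = ∑ i, (θ (K.b i) : U →ₗ[F] Z) ∘ₗ K.n i := rfl

theorem Kit.ext_comp (K : Kit μ σ) (θ : MM μ σ →ₗ[F] MM μ σ') (m : MM μ σ) :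
    K.ext θ ∘ₗ (m : U →ₗ[F] Y) = (θ m : U →ₗ[F] Z) := by
  rw [K.ext_def]
  ext u
  rw [LinearMap.comp_apply, LinearMap.sum_apply]
  have h3 : ∀ i, ((θ (K.b i) : U →ₗ[F] Z) ∘ₗ K.n i) ((m : U →ₗ[F] Y) u) =
      ((K.b.repr m i • θ (K.b i) : MM μ σ') : U →ₗ[F] Z) u := by
    intro i
    rw [LinearMap.comp_apply]
    have := LinearMap.congr_fun (K.dual i m) u
    rw [LinearMap.comp_apply] at this
    rw [this, LinearMap.smul_apply, map_smul]
    rfl
  rw [Finset.sum_congr rfl fun i _ => h3 i, ← LinearMap.sum_apply]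
  congr 1
  conv_rhs => rw [← K.b.sum_repr m]
  rw [map_sum, AddSubmonoidClass.coe_finsetSum]
  refine Finset.sum_congr rfl fun i _ => ?_
  rw [map_smul]

/-- the projection -/
def Kit.e (K : Kit μ σ) : Y →ₗ[F] Y := K.ext (σ' := σ) LinearMap.id

theorem Kit.e_comp (K : Kit μ σ) (m : U →ₗ[F] Y) (hm : m ∈ MM μ σ) : K.e ∘ₗ m = m :=
  K.ext_comp LinearMap.id ⟨m, hm⟩

theorem Kit.comp_e (K : Kit μ σ) (n : Y →ₗ[F] U) (hn : n ∈ MM σ μ) : n ∘ₗ K.e = n := by
  conv_rhs => rw [← K.eps n hn]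
  unfold Kit.e
  rw [K.ext_def]
  ext y
  rw [LinearMap.comp_apply, LinearMap.sum_apply, map_sum, LinearMap.sum_apply]
  rfl

theorem Kit.ext_e (K : Kit μ σ) (θ : MM μ σ →ₗ[F] MM μ σ') : K.ext θ ∘ₗ K.e = K.ext θ := by
  conv_lhs => rw [K.ext_def]
  ext y
  rw [LinearMap.comp_apply, LinearMap.sum_apply, K.ext_def, LinearMap.sum_apply]
  refine Finset.sum_congr rfl fun i _ => ?_
  have := LinearMap.congr_fun (K.comp_e (K.n i) (K.hn i)) y
  rw [LinearMap.comp_apply, LinearMap.comp_apply]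
  rw [LinearMap.comp_apply] at this
  rw [this]

theorem Kit.uniq (K : Kit μ σ) (θ : MM μ σ →ₗ[F] MM μ σ') (f : Y →ₗ[F] Z) (h1 : f ∘ₗ K.e = f)
    (h2 : ∀ m : MM μ σ, f ∘ₗ (m : U →ₗ[F] Y) = (θ m : U →ₗ[F] Z)) : f = K.ext θ := by
  rw [← h1]
  unfold Kit.e
  rw [K.ext_def, K.ext_def]
  ext y
  rw [LinearMap.comp_apply, LinearMap.sum_apply, LinearMap.sum_apply, map_sum]
  refine Finset.sum_congr rfl fun i _ => ?_
  rw [← h2]
  rfl

/-- composition with an intertwining map -/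
def post (f : Y →ₗ[F] Z) (hf : f ∈ MM σ σ') : MM μ σ →ₗ[F] MM μ σ' where
  toFun m := ⟨f ∘ₗ m, comp_mem m.2 hf⟩
  map_add' := by
    intro a b
    apply Subtype.ext
    exact LinearMap.comp_add _ _ _
  map_smul' := by
    intro a b
    apply Subtype.ext
    exact LinearMap.comp_smul _ _ _

theorem Kit.ext_post (K : Kit μ σ) (f : Y →ₗ[F] Z) (hf : f ∈ MM σ σ') :
    K.ext (post f hf) = f ∘ₗ K.e := by
  symm
  apply K.uniq
  · ext y
    have := LinearMap.congr_fun (K.ext_e (σ' := σ) LinearMap.id) y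
    exact congrArg f this
  · intro m
    ext u
    have := LinearMap.congr_fun (K.e_comp m m.2) u
    exact congrArg f this

end kit

section cosets

theorem sum_coset {G A : Type} [Group G] [Fintype G] [AddCommMonoid A] (K : Subgroup G)
    [Fintype K] [Fintype (G ⧸ K)] (φ : G → A) :
    ∑ g, φ g = ∑ q : G ⧸ K, ∑ k : K, φ (q.out * k) := by
  rw [← Fintype.sum_prod_type']
  symm
  refine Fintype.sum_bijective (fun x : (G ⧸ K) × K => x.1.out * (x.2 : G)) ?_ _ _ fun x => rfl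
  constructor
  · rintro ⟨q, k⟩ ⟨q', k'⟩ h
    have h' : q.out * (k : G) = q'.out * k' := h
    have h1 : q = q' := by
      have h2 : (QuotientGroup.mk (q.out * (k : G)) : G ⧸ K) = QuotientGroup.mk (q'.out * (k' : G)) := by
        rw [h']
      rw [QuotientGroup.mk_mul_of_mem _ k.2, QuotientGroup.mk_mul_of_mem _ k'.2,
        QuotientGroup.out_eq', QuotientGroup.out_eq'] at h2
      exact h2
    subst h1
    have h3 : (k : G) = k' := mul_left_cancel h'
    rw [Subtype.ext h3]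
  · intro g
    have h1 : (QuotientGroup.mk g : G ⧸ K).out⁻¹ * g ∈ K := by
      rw [← QuotientGroup.eq, QuotientGroup.out_eq']
    exact ⟨⟨QuotientGroup.mk g, ⟨_, h1⟩⟩, by simp⟩

theorem sum_out_mul {G A : Type} [Group G] [AddCommMonoid A] (K : Subgroup G)
    [Fintype (G ⧸ K)] (φ : G → A) (hφ : ∀ (g : G), ∀ k ∈ K, φ (g * k) = φ g) (x : G) :
    ∑ q : G ⧸ K, φ (x * q.out) = ∑ q : G ⧸ K, φ q.out := by
  refine Fintype.sum_equiv (MulAction.toPerm x) _ _ fun q => ?_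
  have h1 : (MulAction.toPerm x q : G ⧸ K) = QuotientGroup.mk (x * q.out) := by
    conv_lhs => rw [← QuotientGroup.out_eq' q]
    rfl
  rw [h1]
  have h2 : ((QuotientGroup.mk (x * q.out) : G ⧸ K).out)⁻¹ * (x * q.out) ∈ K := by
    rw [← QuotientGroup.eq, QuotientGroup.out_eq']
  have h3 := hφ (QuotientGroup.mk (x * q.out) : G ⧸ K).out _ h2
  rw [mul_inv_cancel_left] at h3
  exact h3

end cosets

end Pool.Agent.K3h3.CY
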