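import Pool.Agent.K3h3.CY.B

/-!
# Intertwining maps: the stabilizer and the induced maps
-/

set_option autoImplicit false

open scoped BigOperators Classical

noncomputable section

namespace Pool.Agent.K3h3.CY

open Pool.Agent.K3h83.IN

variable {F B : Type} [Field F] [Group B] {H T : Subgroup B}
variable {U Y Z X : Type} [AddCommGroup U] [Module F U] [AddCommGroup Y] [Module F Y]
  [AddCommGroup Z] [Module F Z] [AddCommGroup X] [Module F X]

/-- restriction -/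
abbrev rs (H : Subgroup B) (σ : Representation F B Y) : Representation F H Y := σ.comp H.subtype

theorem rs_apply (H : Subgroup B) (σ : Representation F B Y) (h : H) : rs H σ h = σ (h : B) := rfl

/-- `μ'` extends `μ` -/
structure Cpt (μ : Representation F H U) (μ' : Representation F T U) : Prop where
  nor : H.Normal
  le : H ≤ T
  ext : ∀ (h : H) (t : T), (t : B) = h → μ' t = μ h

variable {μ : Representation F H U} {μ' : Representation F T U}

theorem Cpt.conj (hc : Cpt μ μ') (t : T) (h : H) (h' : H) (e : (h' : B) = (t : B) * h * (t : B)⁻¹)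
    (u : U) : μ' t (μ h u) = μ h' (μ' t u) := by
  rw [← hc.ext h ⟨h, hc.le h.2⟩ rfl, ← hc.ext h' ⟨h', hc.le h'.2⟩ rfl, ← rmul, ← rmul]
  congr 2
  apply Subtype.ext
  show (t : B) * h = h' * t
  rw [e, inv_mul_cancel_right]

theorem Cpt.mem1 (hc : Cpt μ μ') (σ : Representation F B Y) (t : T) {m : U →ₗ[F] Y}
    (hm : m ∈ MM μ (rs H σ)) : σ (t : B) ∘ₗ m ∘ₗ μ' t⁻¹ ∈ MM μ (rs H σ) := by
  intro h u
  have hh : ((t⁻¹ : T) : B) * h * ((t⁻¹ : T) : B)⁻¹ ∈ H := hc.nor.conj_mem h h.2 _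
  simp only [LinearMap.comp_apply]
  rw [hc.conj t⁻¹ h ⟨_, hh⟩ rfl, hm, rs_apply, rs_apply, ← rmul, ← rmul]
  congr 2
  show (t : B) * ((t : B)⁻¹ * h * ((t : B)⁻¹)⁻¹) = h * t
  group

theorem Cpt.mem2 (hc : Cpt μ μ') (σ : Representation F B Y) (t : T) {n : Y →ₗ[F] U}
    (hn : n ∈ MM (rs H σ) μ) : μ' t ∘ₗ n ∘ₗ σ ((t : B)⁻¹) ∈ MM (rs H σ) μ := by
  intro h u
  have hh : ((t : B)⁻¹) * h * ((t : B)⁻¹)⁻¹ ∈ H := hc.nor.conj_mem h h.2 _
  simp only [LinearMap.comp_apply]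
  rw [rs_apply, ← rmul]
  have e1 : (t : B)⁻¹ * h = (((t : B)⁻¹) * h * ((t : B)⁻¹)⁻¹) * (t : B)⁻¹ := by group
  rw [e1, rmul]
  have := hn ⟨_, hh⟩ (σ (t : B)⁻¹ u)
  rw [rs_apply] at this
  rw [this]
  apply hc.conj
  show (h : B) = (t : B) * (((t : B)⁻¹) * h * ((t : B)⁻¹)⁻¹) * (t : B)⁻¹
  group

/-- the representation of `T` on the multiplicity space -/
def RT (hc : Cpt μ μ') (σ : Representation F B Y) : Representation F T (MM μ (rs H σ)) where
  toFun t :=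
    { toFun := fun m => ⟨σ (t : B) ∘ₗ m.1 ∘ₗ μ' t⁻¹, hc.mem1 σ t m.2⟩
      map_add' := by
        intro a b
        apply Subtype.ext
        ext u
        simp
      map_smul' := by
        intro a b
        apply Subtype.ext
        ext u
        simp }
  map_one' := by
    ext m u
    simp
  map_mul' := by
    intro s t
    ext m u
    simp

theorem RT_apply (hc : Cpt μ μ') (σ : Representation F B Y) (t : T) (m : MM μ (rs H σ)) (u : U) :
    (RT hc σ t m : U →ₗ[F] Y) u = σ (t : B) ((m : U →ₗ[F] Y) (μ' t⁻¹ u)) := rfl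

theorem RT_H (hc : Cpt μ μ') (σ : Representation F B Y) (t : T) (ht : (t : B) ∈ H) :
    RT hc σ t = 1 := by
  ext m u
  rw [RT_apply]
  have h1 : μ' t⁻¹ = μ (⟨t, ht⟩⁻¹ : H) := hc.ext _ _ rfl
  have h2 := m.2 (⟨t, ht⟩⁻¹ : H) u
  rw [h1, h2, rs_apply]
  exact rinv2 σ _ _

/-- the representation of `T / H` on the multiplicity space -/
def RG (hc : Cpt μ μ') [(H.subgroupOf T).Normal] (σ : Representation F B Y) :
    Representation F (T ⧸ H.subgroupOf T) (MM μ (rs H σ)) :=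
  QuotientGroup.lift (H.subgroupOf T) (RT hc σ) (fun t ht => RT_H hc σ t ht)

theorem RG_mk (hc : Cpt μ μ') [(H.subgroupOf T).Normal] (σ : Representation F B Y) (t : T) :
    RG hc σ (QuotientGroup.mk t) = RT hc σ t := rfl

theorem Kit.e_apply {G : Type} [Group G] {μ : Representation F G U} {σ : Representation F G Y}
    (K : Kit μ σ) (y : Y) : K.e y = ∑ i, (K.b i : U →ₗ[F] Y) (K.n i y) := by
  unfold Kit.e
  rw [K.ext_def, LinearMap.sum_apply]
  rfl

theorem Kit.e_comm (hc : Cpt μ μ') (σ : Representation F B Y) (K : Kit μ (rs H σ)) (t : T) :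
    σ (t : B) ∘ₗ K.e ∘ₗ σ (t : B)⁻¹ = K.e := by
  have h1 : K.e ∘ₗ (σ (t : B) ∘ₗ K.e ∘ₗ σ (t : B)⁻¹) = σ (t : B) ∘ₗ K.e ∘ₗ σ (t : B)⁻¹ := by
    ext y
    simp only [LinearMap.comp_apply]
    have h2 : ∀ z, σ (t : B) (K.e z) = ∑ i, (RT hc σ t (K.b i) : U →ₗ[F] Y) (μ' t (K.n i z)) := by
      intro z
      unfold Kit.e
      rw [K.ext_def, LinearMap.sum_apply, map_sum]
      refine Finset.sum_congr rfl fun i _ => ?_
      rw [RT_apply, rinv1]
      rfl
    rw [h2, map_sum]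
    refine Finset.sum_congr rfl fun i _ => ?_
    exact LinearMap.congr_fun (K.e_comp _ (RT hc σ t (K.b i)).2) _
  have h3 : K.e ∘ₗ (σ (t : B) ∘ₗ K.e ∘ₗ σ (t : B)⁻¹) = K.e := by
    ext y
    have h4 : ∀ i, K.n i (σ (t : B) (K.e (σ (t : B)⁻¹ y))) = K.n i y := by
      intro i
      have h5 := hc.mem2 σ t⁻¹ (K.hn i)
      have h6 := LinearMap.congr_fun (K.comp_e _ h5) (σ (t : B)⁻¹ y)
      simp only [LinearMap.comp_apply] at h6
      have h7 := congrArg (μ' t) h6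
      rw [rinv2, rinv2] at h7
      have h8 : (((t⁻¹ : T) : B))⁻¹ = (t : B) := by
        show ((t : B)⁻¹)⁻¹ = t
        rw [inv_inv]
      rw [h8, rinv2] at h7
      exact h7
    simp only [LinearMap.comp_apply]
    rw [K.e_apply (σ (t : B) (K.e (σ (t : B)⁻¹ y))), K.e_apply y]
    refine Finset.sum_congr rfl fun i _ => ?_
    rw [h4]
  rw [← h1, h3]

theorem Kit.e_comm' (hc : Cpt μ μ') (σ : Representation F B Y) (K : Kit μ (rs H σ)) (t : T) (y : Y) :
    σ (t : B) (K.e y) = K.e (σ (t : B) y) := by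
  have := LinearMap.congr_fun (K.e_comm hc σ t) (σ (t : B) y)
  simp only [LinearMap.comp_apply] at this
  rw [rinv1] at this
  exact this

theorem Kit.conj_ext (hc : Cpt μ μ') (σ : Representation F B Y) (σ' : Representation F B Z)
    (K : Kit μ (rs H σ)) (θ : MM μ (rs H σ) →ₗ[F] MM μ (rs H σ')) (t : T) :
    σ' (t : B) ∘ₗ K.ext θ ∘ₗ σ (t : B)⁻¹ = K.ext (RT hc σ' t ∘ₗ θ ∘ₗ RT hc σ t⁻¹) := by
  apply K.uniq
  · ext y
    simp only [LinearMap.comp_apply]
    have h1 := K.e_comm' hc σ t⁻¹ y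
    have h1' : σ (t : B)⁻¹ (K.e y) = K.e (σ (t : B)⁻¹ y) := h1
    rw [h1']
    have h2 := LinearMap.congr_fun (K.ext_e θ) (σ (t : B)⁻¹ y)
    rw [LinearMap.comp_apply] at h2
    rw [h2]
  · intro m
    ext u
    simp only [LinearMap.comp_apply]
    rw [RT_apply, ← K.ext_comp θ (RT hc σ t⁻¹ m), LinearMap.comp_apply, RT_apply, inv_inv, rinv2]
    rfl

/-- orthogonality outside the stabilizer -/
theorem ortho [FiniteDimensional F U] (hn : H.Normal) (hi : μ.IsIrreducible)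
    (hT : ∀ b : B, b ∈ T ↔ ∃ A : U ≃ₗ[F] U, ∀ (h h' : H) (u : U), b * h * b⁻¹ = h' →
      A (μ h u) = μ h' (A u)) (σ : Representation F B Y) (b : B) (hb : b ∉ T) {m : U →ₗ[F] Y}
    (hm : m ∈ MM μ (rs H σ)) {n : Y →ₗ[F] U} (hn' : n ∈ MM (rs H σ) μ) (u : U) :
    n (σ b (m u)) = 0 := by
  by_contra hcon
  apply hb
  let x : U →ₗ[F] U := n ∘ₗ σ b ∘ₗ m
  have hx : ∀ (h h' : H) (u : U), b * h * b⁻¹ = h' → x (μ h u) = μ h' (x u) := by
    intro h h' u e
    show n (σ b (m (μ h u))) = μ h' (n (σ b (m u)))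
    rw [hm, ← hn', rs_apply, rs_apply, ← rmul, ← rmul, ← e, inv_mul_cancel_right]
  obtain ⟨-, h2⟩ := (irr_iff μ).1 hi
  have hk : LinearMap.ker x = ⊥ := by
    rcases h2 (LinearMap.ker x) (by
      intro h v hv
      rw [LinearMap.mem_ker] at hv ⊢
      rw [hx h ⟨_, hn.conj_mem h h.2 b⟩ v rfl, hv, map_zero]) with h3 | h3
    · exact h3
    · exact absurd (LinearMap.congr_fun (LinearMap.ker_eq_top.1 h3) u) hcon
  refine (hT b).2 ⟨LinearEquiv.ofInjectiveEndo x (LinearMap.ker_eq_bot.1 hk), ?_⟩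
  intro h h' u e
  rw [LinearEquiv.coe_ofInjectiveEndo]
  exact hx h h' u e

/-- induced maps -/
def ind [Fintype (B ⧸ T)] (σ : Representation F B Y) (σ' : Representation F B Z) (f : Y →ₗ[F] Z) :
    Y →ₗ[F] Z := ∑ q : B ⧸ T, σ' q.out ∘ₗ f ∘ₗ σ (q.out)⁻¹

theorem ind_apply [Fintype (B ⧸ T)] (σ : Representation F B Y) (σ' : Representation F B Z)
    (f : Y →ₗ[F] Z) (y : Y) :
    ind (T := T) σ σ' f y = ∑ q : B ⧸ T, σ' q.out (f (σ (q.out)⁻¹ y)) := by
  unfold ind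
  rw [LinearMap.sum_apply]
  rfl

theorem ind_hom [Fintype (B ⧸ T)] (σ : Representation F B Y) (σ' : Representation F B Z)
    (f : Y →ₗ[F] Z) (hf : ∀ t ∈ T, ∀ y, σ' t (f y) = f (σ t y)) (b : B) (y : Y) :
    ind (T := T) σ σ' f (σ b y) = σ' b (ind (T := T) σ σ' f y) := by
  rw [ind_apply, ind_apply, map_sum]
  have h1 := sum_out_mul T (fun g => σ' g (f (σ g⁻¹ (σ b y)))) (by
    intro g k hk
    show σ' (g * k) (f (σ (g * k)⁻¹ (σ b y))) = σ' g (f (σ g⁻¹ (σ b y)))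
    rw [rmul, hf k hk, mul_inv_rev, rmul, rinv2]) b
  rw [← h1]
  refine Finset.sum_congr rfl fun q _ => ?_
  rw [rmul, mul_inv_rev, rmul, rinv1]

/-- the induced map on the multiplicity space -/
theorem ind_comp [Fintype (B ⧸ T)] [FiniteDimensional F U] (hn : H.Normal) (hi : μ.IsIrreducible)
    (hT : ∀ b : B, b ∈ T ↔ ∃ A : U ≃ₗ[F] U, ∀ (h h' : H) (u : U), b * h * b⁻¹ = h' →
      A (μ h u) = μ h' (A u)) (σ : Representation F B Y) (σ' : Representation F B Z)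
    (K : Kit μ (rs H σ)) (θ : MM μ (rs H σ) →ₗ[F] MM μ (rs H σ'))
    (hf : ∀ t ∈ T, ∀ y, σ' t (K.ext θ y) = K.ext θ (σ t y)) (m : MM μ (rs H σ)) :
    ind (T := T) σ σ' (K.ext θ) ∘ₗ (m : U →ₗ[F] Y) = (θ m : U →ₗ[F] Z) := by
  ext u
  rw [LinearMap.comp_apply, ind_apply, Finset.sum_eq_single (QuotientGroup.mk (1 : B) : B ⧸ T)]
  · have h1 : (QuotientGroup.mk (1 : B) : B ⧸ T).out ∈ T := by
      have h2 : ((QuotientGroup.mk (1 : B) : B ⧸ T).out)⁻¹ * 1 ∈ T := by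
        rw [← QuotientGroup.eq, QuotientGroup.out_eq']
      rw [mul_one] at h2
      exact (Subgroup.inv_mem_iff T).1 h2
    rw [hf _ h1, rinv2, ← K.ext_comp θ m]
    rfl
  · intro q _ hq
    have h1 : (q.out)⁻¹ ∉ T := by
      intro h
      apply hq
      rw [← QuotientGroup.out_eq' q, QuotientGroup.eq, mul_one]
      exact h
    rw [K.ext_def, LinearMap.sum_apply]
    rw [Finset.sum_eq_zero, map_zero]
    intro i _
    rw [LinearMap.comp_apply, ortho hn hi hT σ _ h1 m.2 (K.hn i), map_zero]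
  · intro h
    exact absurd (Finset.mem_univ _) h

end Pool.Agent.K3h3.CY
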