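import Pool.Agent.K3h3.CY.C

/-!
# Intertwining maps: transfer of traces to the multiplicity spaces
-/

set_option autoImplicit false
set_option linter.style.haveILetI false

open scoped BigOperators Classical

noncomputable section

namespace Pool.Agent.K3h3.CY

open Pool.Agent.K3h83.IN

variable {F B : Type} [Field F] [Group B] {H T : Subgroup B}
variable {U Y Z W X : Type} [AddCommGroup U] [Module F U] [AddCommGroup Y] [Module F Y]
  [AddCommGroup Z] [Module F Z] [AddCommGroup X] [Module F X] [AddCommGroup W] [Module F W]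

theorem StS_iff {G V : Type} [Group G] [Finite G] [Fintype G] [AddCommGroup V] [Module F V]
    (σ : Representation F G V) : StS σ ↔
    ∀ η : V →ₗ[F] V, (∀ (b : G) (v : V), σ b (η v) = η (σ b v)) →
    ∃ (c : F) (β : V →ₗ[F] V), ∀ v, η v = c • v + ∑ b : G, σ b (β (σ b⁻¹ v)) := by
  unfold StS
  obtain rfl : ‹Fintype G› = Fintype.ofFinite G := Subsingleton.elim _ _
  refine forall_congr' fun η => forall_congr' fun h => exists_congr fun c => exists_congr fun β => ?_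
  rw [LinearMap.ext_iff]
  refine forall_congr' fun v => ?_
  rw [LinearMap.add_apply, LinearMap.sum_apply]
  rfl

theorem OccS_iff {G V : Type} [Group G] [Finite G] [Fintype G] [AddCommGroup V] [Module F V]
    (σ : Representation F G V) (τ : Representation F G W) : OccS (MonoidHom.id G) σ τ ↔
    ∃ f : W →ₗ[F] V, (∀ (b : G) (w : W), σ b (f w) = f (τ b w)) ∧
    ¬ ∃ θ : W →ₗ[F] V, ∀ w, f w = ∑ b : G, σ b (θ (τ b⁻¹ w)) := by
  unfold OccS
  obtain rfl : ‹Fintype G› = Fintype.ofFinite G := Subsingleton.elim _ _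
  refine exists_congr fun f => and_congr_right fun _ => not_congr (exists_congr fun θ => ?_)
  rw [LinearMap.ext_iff]
  refine forall_congr' fun v => ?_
  rw [LinearMap.sum_apply]
  rfl

variable {μ : Representation F H U} {μ' : Representation F T U}

/-- the average of the composition -/
def avM [Fintype H] (μ : Representation F H U) (σ : Representation F B Y)
    (σ' : Representation F B Z) (ξ : Y →ₗ[F] Z) :
    MM μ (rs H σ) →ₗ[F] MM μ (rs H σ') where
  toFun m := ⟨av μ (rs H σ') (ξ ∘ₗ m.1), av_mem _ _ _⟩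
  map_add' := by
    intro a b
    apply Subtype.ext
    ext u
    simp [av, Finset.sum_add_distrib]
  map_smul' := by
    intro c a
    apply Subtype.ext
    ext u
    simp [av, Finset.smul_sum]

theorem avM_apply [Fintype H] (σ : Representation F B Y)
    (σ' : Representation F B Z) (ξ : Y →ₗ[F] Z) (m : MM μ (rs H σ)) (u : U) :
    (avM μ σ σ' ξ m : U →ₗ[F] Z) u = ∑ h : H, σ' (h : B) (ξ ((m : U →ₗ[F] Y) (μ h⁻¹ u))) := by
  show av μ (rs H σ') (ξ ∘ₗ m.1) u = _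
  unfold av
  rw [LinearMap.sum_apply]
  rfl

theorem tr_res [Fintype H] [Fintype T] (hc : Cpt μ μ') [(H.subgroupOf T).Normal]
    [Fintype (T ⧸ H.subgroupOf T)] (σ : Representation F B Y)
    (σ' : Representation F B Z) (ξ : Y →ₗ[F] Z) (m : MM μ (rs H σ)) (u : U) :
    ∑ t : T, σ' (t : B) (ξ (σ (t : B)⁻¹ ((m : U →ₗ[F] Y) u))) =
      ((∑ γ : T ⧸ H.subgroupOf T, RG hc σ' γ (avM μ σ σ' ξ (RG hc σ γ⁻¹ m)) :
        MM μ (rs H σ')) : U →ₗ[F] Z) u := by
  rw [sum_coset (H.subgroupOf T) (fun t : T => σ' (t : B) (ξ (σ (t : B)⁻¹ ((m : U →ₗ[F] Y) u)))),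
    AddSubmonoidClass.coe_finsetSum, LinearMap.sum_apply]
  refine Finset.sum_congr rfl fun γ _ => ?_
  have e1 : RG hc σ' γ = RT hc σ' γ.out := by
    rw [← RG_mk, QuotientGroup.out_eq']
  have e2 : RG hc σ γ⁻¹ = RT hc σ γ.out⁻¹ := by
    rw [← RG_mk, QuotientGroup.mk_inv, QuotientGroup.out_eq']
  rw [e1, e2, RT_apply, avM_apply, map_sum]
  refine Fintype.sum_equiv (Subgroup.subgroupOfEquivOfLe hc.le).toEquiv _ _ fun k => ?_
  have e3 : (((Subgroup.subgroupOfEquivOfLe hc.le).toEquiv k : H) : B) = ((k : T) : B) := rfl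
  rw [RT_apply, e3]
  show σ' ((γ.out : B) * ((k : T) : B)) (ξ (σ ((γ.out : B) * ((k : T) : B))⁻¹
    ((m : U →ₗ[F] Y) u))) = _
  rw [rmul, mul_inv_rev, rmul]
  have e4 : (RT hc σ γ.out⁻¹ m : U →ₗ[F] Y) (μ' γ.out⁻¹ u) =
      σ (γ.out : B)⁻¹ ((m : U →ₗ[F] Y) u) := by
    rw [RT_apply, rinv1]
    rfl
  have e5 := (RT hc σ γ.out⁻¹ m).2 ((Subgroup.subgroupOfEquivOfLe hc.le).toEquiv k)⁻¹
    (μ' γ.out⁻¹ u)
  rw [e4, rs_apply] at e5
  have e6 : ((((Subgroup.subgroupOfEquivOfLe hc.le).toEquiv k : H)⁻¹ : H) : B) =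
    ((k : T) : B)⁻¹ := rfl
  rw [e6] at e5
  rw [← e5, RT_apply]

/-- the endomorphisms of the multiplicity space -/
theorem StS_transfer [Finite B] [IsAlgClosed F] [FiniteDimensional F U] [FiniteDimensional F Y]
    (hH : (Nat.card H : F) ≠ 0)
    (hi : μ.IsIrreducible) (hc : Cpt μ μ') [(H.subgroupOf T).Normal]
    (hT : ∀ b : B, b ∈ T ↔ ∃ A : U ≃ₗ[F] U, ∀ (h h' : H) (u : U), b * h * b⁻¹ = h' →
      A (μ h u) = μ h' (A u)) (σ : Representation F B Y) (hs : StS σ) : StS (RG hc σ) := by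
  letI := Fintype.ofFinite B
  letI := Fintype.ofFinite H
  letI := Fintype.ofFinite T
  letI := Fintype.ofFinite (B ⧸ T)
  letI := Fintype.ofFinite (T ⧸ H.subgroupOf T)
  rw [Nat.card_eq_fintype_card] at hH
  obtain ⟨K⟩ := exists_kit hH μ (rs H σ) hi
  rw [StS_iff] at hs ⊢
  intro η hη
  have hηT : ∀ (t : T) (m : MM μ (rs H σ)), RT hc σ t (η m) = η (RT hc σ t m) :=
    fun t m => hη (QuotientGroup.mk t) m
  have hf : ∀ t ∈ T, ∀ y, σ t (K.ext η y) = K.ext η (σ t y) := by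
    intro t ht y
    have h1 := K.conj_ext hc σ σ η ⟨t, ht⟩
    have h2 : RT hc σ ⟨t, ht⟩ ∘ₗ η ∘ₗ RT hc σ (⟨t, ht⟩ : T)⁻¹ = η := by
      refine LinearMap.ext fun m => ?_
      rw [LinearMap.comp_apply, LinearMap.comp_apply, hηT, rinv2]
    rw [h2] at h1
    have h3 := LinearMap.congr_fun h1 (σ t y)
    simp only [LinearMap.comp_apply] at h3
    rw [rinv1] at h3
    exact h3
  obtain ⟨c, β, hβ⟩ := hs (ind (T := T) σ σ (K.ext η))
    (fun b v => (ind_hom σ σ (K.ext η) hf b v).symm)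
  let β' : Y →ₗ[F] Y := ∑ q : B ⧸ T, σ (q.out)⁻¹ ∘ₗ β ∘ₗ σ q.out
  refine ⟨c, avM μ σ σ β', fun m => ?_⟩
  apply Subtype.ext
  refine LinearMap.ext fun u => ?_
  have h1 := LinearMap.congr_fun (ind_comp hc.nor hi hT σ σ K η hf m) u
  rw [LinearMap.comp_apply, hβ] at h1
  rw [← h1]
  show _ = (c • (m : U →ₗ[F] Y)) u + ((∑ b : T ⧸ H.subgroupOf T, RG hc σ b (avM μ σ σ β'
    (RG hc σ b⁻¹ m)) : MM μ (rs H σ)) : U →ₗ[F] Y) u
  rw [← tr_res hc σ σ β' m u, LinearMap.smul_apply]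
  congr 1
  have hβ' : ∀ y, β' y = ∑ q : B ⧸ T, σ (q.out)⁻¹ (β (σ q.out y)) := by
    intro y
    show (∑ q : B ⧸ T, σ (q.out)⁻¹ ∘ₗ β ∘ₗ σ q.out) y = _
    rw [LinearMap.sum_apply]
    rfl
  rw [← Fintype.sum_equiv (Equiv.inv B) (fun b => σ b⁻¹ (β (σ b ((m : U →ₗ[F] Y) u)))) _
    (fun b => by simp only [Equiv.inv_apply, inv_inv])]
  rw [← Fintype.sum_equiv (Equiv.inv T) (fun t => σ (t : B)⁻¹ (β' (σ (t : B) ((m : U →ₗ[F] Y) u)))) _
    (fun b => by simp only [Equiv.inv_apply, InvMemClass.coe_inv, inv_inv])]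
  rw [sum_coset T (fun b => σ b⁻¹ (β (σ b ((m : U →ₗ[F] Y) u)))), Finset.sum_comm]
  refine Finset.sum_congr rfl fun t _ => ?_
  rw [hβ', map_sum]
  refine Finset.sum_congr rfl fun q _ => ?_
  rw [mul_inv_rev, rmul, rmul]

/-- traces over the quotient -/
theorem trace_up [Fintype T] (hc : Cpt μ μ') [(H.subgroupOf T).Normal] [Fintype (H.subgroupOf T)]
    [Fintype (T ⧸ H.subgroupOf T)] (hH : (Fintype.card (H.subgroupOf T) : F) ≠ 0)
    (σ : Representation F B Y) (σ' : Representation F B Z)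
    (θ : MM μ (rs H σ) →ₗ[F] MM μ (rs H σ')) :
    ∑ γ : T ⧸ H.subgroupOf T, RG hc σ' γ ∘ₗ θ ∘ₗ RG hc σ γ⁻¹ =
      ∑ t : T, RT hc σ' t ∘ₗ ((Fintype.card (H.subgroupOf T) : F)⁻¹ • θ) ∘ₗ RT hc σ t⁻¹ := by
  rw [sum_coset (H.subgroupOf T) (fun t : T => RT hc σ' t ∘ₗ
    ((Fintype.card (H.subgroupOf T) : F)⁻¹ • θ) ∘ₗ RT hc σ t⁻¹)]
  refine Finset.sum_congr rfl fun γ _ => ?_
  have h1 : ∀ k : H.subgroupOf T, RT hc σ' (γ.out * k) ∘ₗ
      ((Fintype.card (H.subgroupOf T) : F)⁻¹ • θ) ∘ₗ RT hc σ (γ.out * k)⁻¹ =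
      (Fintype.card (H.subgroupOf T) : F)⁻¹ • (RG hc σ' γ ∘ₗ θ ∘ₗ RG hc σ γ⁻¹) := by
    intro k
    have e1 : RT hc σ' (γ.out * k) = RG hc σ' γ := by
      rw [← RG_mk, QuotientGroup.mk_mul_of_mem _ k.2, QuotientGroup.out_eq']
    have e2 : RT hc σ (γ.out * k)⁻¹ = RG hc σ γ⁻¹ := by
      rw [← RG_mk, QuotientGroup.mk_inv, QuotientGroup.mk_mul_of_mem _ k.2, QuotientGroup.out_eq']
    rw [e1, e2]
    rw [LinearMap.smul_comp, LinearMap.comp_smul]
  rw [Finset.sum_congr rfl fun k _ => h1 k, Finset.sum_const, Finset.card_univ,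
    ← Nat.cast_smul_eq_nsmul F, smul_smul, mul_inv_cancel₀ hH, one_smul]

/-- a homomorphism which is not a trace gives a map of multiplicity spaces which is not a trace -/
theorem Occ_transfer [Finite B] [IsAlgClosed F] [FiniteDimensional F U] [FiniteDimensional F W]
    (hH : (Nat.card H : F) ≠ 0) (hc : Cpt μ μ') [(H.subgroupOf T).Normal]
    (σ : Representation F B Y) (τ : Representation F B W) (K : Kit μ (rs H τ))
    (h1 : ∀ [Fintype (B ⧸ T)] (w : W), ind (T := T) τ τ K.e w = w)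
    (ho : OccS (MonoidHom.id B) σ τ) : OccS (MonoidHom.id _) (RG hc σ) (RG hc τ) := by
  letI := Fintype.ofFinite B
  letI := Fintype.ofFinite H
  letI := Fintype.ofFinite T
  letI := Fintype.ofFinite (B ⧸ T)
  letI := Fintype.ofFinite (T ⧸ H.subgroupOf T)
  letI := Fintype.ofFinite (H.subgroupOf T)
  have hH' : (Fintype.card (H.subgroupOf T) : F) ≠ 0 := by
    rw [← Nat.card_eq_fintype_card, Nat.card_congr (Subgroup.subgroupOfEquivOfLe hc.le).toEquiv]
    exact hH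
  rw [OccS_iff] at ho ⊢
  obtain ⟨f, hf, hno⟩ := ho
  have hfm : f ∈ MM (rs H τ) (rs H σ) := fun h w => (hf h w).symm
  refine ⟨post f hfm, ?_, ?_⟩
  · intro γ m
    obtain ⟨t, rfl⟩ := QuotientGroup.mk_surjective γ
    rw [RG_mk, RG_mk]
    apply Subtype.ext
    refine LinearMap.ext fun u => ?_
    rw [RT_apply]
    exact hf t _
  · rintro ⟨θ, hθ⟩
    apply hno
    have h2 : post f hfm = ∑ γ : T ⧸ H.subgroupOf T, RG hc σ γ ∘ₗ θ ∘ₗ RG hc τ γ⁻¹ := by
      refine LinearMap.ext fun m => ?_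
      rw [hθ, LinearMap.sum_apply]
      rfl
    rw [trace_up hc hH'] at h2
    set θ' := (Fintype.card (H.subgroupOf T) : F)⁻¹ • θ with hθ'
    have h3 : f ∘ₗ K.e = ∑ t : T, σ (t : B) ∘ₗ K.ext θ' ∘ₗ τ (t : B)⁻¹ := by
      rw [← K.ext_post f hfm, h2, map_sum]
      refine Finset.sum_congr rfl fun t _ => ?_
      rw [K.conj_ext hc τ σ]
    refine ⟨K.ext θ', fun w => ?_⟩
    conv_lhs => rw [← h1 w]
    rw [ind_apply, map_sum, sum_coset T]
    refine Finset.sum_congr rfl fun q _ => ?_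
    rw [← hf]
    have h4 := LinearMap.congr_fun h3 (τ (q.out)⁻¹ w)
    rw [LinearMap.comp_apply, LinearMap.sum_apply] at h4
    rw [h4, map_sum]
    refine Finset.sum_congr rfl fun t _ => ?_
    rw [rmul, mul_inv_rev, rmul]
    rfl

end Pool.Agent.K3h3.CY
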