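import Pool.Agent.K3h3.CY.D

/-!
# Groups with a cyclic Sylow `p`-subgroup: reduction to a normal Sylow subgroup (brick CY E3)
-/

set_option autoImplicit false
set_option linter.style.haveILetI false

open scoped BigOperators Classical

noncomputable section

namespace Pool.Agent.K3h3.CY

open Pool.Agent.K3h83.IN

section irr

variable {F B : Type} [Field F] [Group B] {H T : Subgroup B}
variable {U Y Z W X : Type} [AddCommGroup U] [Module F U] [AddCommGroup Y] [Module F Y]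
  [AddCommGroup Z] [Module F Z] [AddCommGroup X] [Module F X] [AddCommGroup W] [Module F W]

/-- an irreducible representation is generated by a nonzero vector -/
theorem gen {τ : Representation F B W} (hτ : τ.IsIrreducible) {m : U →ₗ[F] W} (h0 : m ≠ 0)
    (g : W →ₗ[F] Y) (hg : ∀ (b : B) (u : U), g (τ b (m u)) = 0) : g = 0 := by
  obtain ⟨-, h2⟩ := (irr_iff τ).1 hτ
  let S : Submodule F W :=
    { carrier := {w | ∀ b : B, g (τ b w) = 0}
      add_mem' := by
        intro a b ha hb x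
        rw [map_add, map_add, ha x, hb x, add_zero]
      zero_mem' := by
        intro b
        rw [map_zero, map_zero]
      smul_mem' := by
        intro c a ha x
        rw [map_smul, map_smul, ha x, smul_zero] }
  have hS : ∀ w, w ∈ S ↔ ∀ b : B, g (τ b w) = 0 := fun w => Iff.rfl
  rcases h2 S (by
    intro x w hw b
    rw [← rmul]
    exact hw (b * x)) with h3 | h3
  · exfalso
    apply h0
    ext u
    have h4 : m u ∈ S := fun b => hg b u
    rw [h3, Submodule.mem_bot] at h4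
    rw [h4]
    rfl
  · ext w
    have h4 : w ∈ S := by
      rw [h3]
      trivial
    have := h4 1
    rw [map_one] at this
    exact this

/-- there is an irreducible subrepresentation -/
theorem exists_irr {G : Type} [Group G] [FiniteDimensional F W] [Nontrivial W]
    (ρ : Representation F G W) :
    ∃ (S : Submodule F W) (μ : Representation F G S), μ.IsIrreducible ∧ S.subtype ∈ MM μ ρ := by
  let P : ℕ → Prop := fun n => ∃ S : Submodule F W, S ≠ ⊥ ∧ (∀ (g : G), ∀ w ∈ S, ρ g w ∈ S) ∧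
    Module.finrank F S = n
  have hex : ∃ n, P n := ⟨_, ⊤, top_ne_bot, fun g w _ => Submodule.mem_top, rfl⟩
  obtain ⟨S, hS0, hS, hn⟩ := Nat.find_spec hex
  let μ : Representation F G S :=
    { toFun := fun g => (ρ g).restrict (hS g)
      map_one' := by ext; simp
      map_mul' := by intro x y; ext; simp }
  have hμ : ∀ (g : G) (s : S), ((μ g s : S) : W) = ρ g s := fun g s => rfl
  refine ⟨S, μ, (irr_iff μ).2 ⟨Submodule.nontrivial_iff_ne_bot.2 hS0, ?_⟩, fun g s => hμ g s⟩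
  intro R hR
  by_cases hR0 : R = ⊥
  · exact Or.inl hR0
  right
  have h1 : R.map S.subtype ≠ ⊥ := by
    intro h
    apply hR0
    rw [eq_bot_iff]
    intro r hr
    have h5 : (r : W) ∈ R.map S.subtype := ⟨r, hr, rfl⟩
    rw [h, Submodule.mem_bot] at h5
    rw [Submodule.mem_bot]
    exact Subtype.ext h5
  have h2 : ∀ (g : G), ∀ w ∈ R.map S.subtype, ρ g w ∈ R.map S.subtype := by
    rintro g _ ⟨r, hr, rfl⟩
    exact ⟨μ g r, hR g r hr, hμ g r⟩
  have h3 : Nat.find hex ≤ Module.finrank F (R.map S.subtype) := Nat.find_min' hex ⟨_, h1, h2, rfl⟩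
  rw [Submodule.finrank_map_subtype_eq, ← hn] at h3
  exact Submodule.eq_top_of_finrank_eq (le_antisymm (Submodule.finrank_le R) h3)

variable {μ : Representation F H U} {μ' : Representation F T U}

/-- the projections sum to the identity -/
theorem ind_one [Fintype (B ⧸ T)] [FiniteDimensional F U] (hi : μ.IsIrreducible) (hc : Cpt μ μ')
    (hT : ∀ b : B, b ∈ T ↔ ∃ A : U ≃ₗ[F] U, ∀ (h h' : H) (u : U), b * h * b⁻¹ = h' →
      A (μ h u) = μ h' (A u)) {τ : Representation F B W} (hτ : τ.IsIrreducible)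
    (K : Kit μ (rs H τ)) {m : U →ₗ[F] W} (hm : m ∈ MM μ (rs H τ)) (h0 : m ≠ 0) (w : W) :
    ind (T := T) τ τ K.e w = w := by
  have hf : ∀ t ∈ T, ∀ y, τ t (K.ext (σ' := rs H τ) LinearMap.id y) =
      K.ext (σ' := rs H τ) LinearMap.id (τ t y) := fun t ht y => K.e_comm' hc τ ⟨t, ht⟩ y
  have h1 := gen hτ h0 (ind (T := T) τ τ K.e - LinearMap.id) (by
    intro b u
    rw [LinearMap.sub_apply, LinearMap.id_apply]
    have h2 := ind_hom τ τ K.e hf b (m u)
    have h3 := LinearMap.congr_fun (ind_comp hc.nor hi hT τ τ K LinearMap.id hf ⟨m, hm⟩) u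
    rw [LinearMap.comp_apply] at h3
    have h3' : ind (T := T) τ τ K.e (m u) = m u := h3
    rw [h2, h3', sub_self])
  have h2 := LinearMap.congr_fun h1 w
  rw [LinearMap.sub_apply, LinearMap.id_apply, LinearMap.zero_apply, sub_eq_zero] at h2
  exact h2

/-- the multiplicity space is irreducible -/
theorem RG_irr [Finite B] [IsAlgClosed F] [FiniteDimensional F U] [FiniteDimensional F W]
    (hH : (Nat.card H : F) ≠ 0)
    (hi : μ.IsIrreducible) (hc : Cpt μ μ') [(H.subgroupOf T).Normal]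
    (hT : ∀ b : B, b ∈ T ↔ ∃ A : U ≃ₗ[F] U, ∀ (h h' : H) (u : U), b * h * b⁻¹ = h' →
      A (μ h u) = μ h' (A u)) {τ : Representation F B W} (hτ : τ.IsIrreducible)
    {m : U →ₗ[F] W} (hm : m ∈ MM μ (rs H τ)) (h0 : m ≠ 0) : (RG hc τ).IsIrreducible := by
  letI := Fintype.ofFinite H
  rw [Nat.card_eq_fintype_card] at hH
  rw [irr_iff]
  refine ⟨⟨⟨⟨m, hm⟩, 0, fun h => h0 (congrArg Subtype.val h)⟩⟩, ?_⟩
  intro S hS
  by_contra hcon
  push Not at hcon
  obtain ⟨hS0, hS1⟩ := hcon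
  obtain ⟨ℓ, hℓ0, hℓ⟩ := Submodule.exists_le_ker_of_lt_top S (lt_top_iff_ne_top.2 hS1)
  obtain ⟨n, hn, hnm⟩ := dual hH hi ℓ
  obtain ⟨s, hs, hs0⟩ := Submodule.exists_mem_ne_zero_of_ne_bot hS0
  have h1 : n = 0 := by
    apply gen hτ (m := (s : U →ₗ[F] W)) (fun h => hs0 (Subtype.ext h))
    intro b u
    by_cases hb : b ∈ T
    · have h2 : RT hc τ ⟨b, hb⟩ s ∈ S := by
        rw [← RG_mk]
        exact hS _ s hs
      have h3 := LinearMap.congr_fun (hnm (RT hc τ ⟨b, hb⟩ s)) (μ' ⟨b, hb⟩ u)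
      have h4 : ℓ (RT hc τ ⟨b, hb⟩ s) = 0 := hℓ h2
      rw [h4, zero_smul, LinearMap.comp_apply, RT_apply, rinv1] at h3
      exact h3
    · exact ortho hc.nor hi hT τ b hb s.2 hn u
  apply hℓ0
  ext x
  obtain ⟨hnt, -⟩ := (irr_iff μ).1 hi
  obtain ⟨u, hu⟩ := exists_ne (0 : U)
  have h2 := LinearMap.congr_fun (hnm x) u
  rw [h1] at h2
  have h3 : ℓ x • u = 0 := h2.symm
  rcases smul_eq_zero.1 h3 with h4 | h4
  · rw [h4]
    rfl
  · exact absurd h4 hu

/-- the other multiplicity space is nonzero -/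
theorem MM_ne [Finite B] [IsAlgClosed F] [FiniteDimensional F U] [FiniteDimensional F Y]
    (hH : (Nat.card H : F) ≠ 0)
    (hi : μ.IsIrreducible) (hc : Cpt μ μ')
    (hT : ∀ b : B, b ∈ T ↔ ∃ A : U ≃ₗ[F] U, ∀ (h h' : H) (u : U), b * h * b⁻¹ = h' →
      A (μ h u) = μ h' (A u)) {σ : Representation F B Y} {τ : Representation F B W}
    {τ' : Representation F B Z} (hs : StS σ) (hτ : τ.IsIrreducible)
    (ho : OccS (MonoidHom.id B) σ τ) (ho' : OccS (MonoidHom.id B) σ τ')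
    {m : U →ₗ[F] W} (hm : m ∈ MM μ (rs H τ)) (h0 : m ≠ 0) :
    ∃ m' ∈ MM μ (rs H τ'), m' ≠ 0 := by
  letI := Fintype.ofFinite B
  letI := Fintype.ofFinite H
  letI := Fintype.ofFinite (B ⧸ T)
  rw [Nat.card_eq_fintype_card] at hH
  by_contra hcon
  push Not at hcon
  have hN : ∀ n ∈ MM (rs H τ') μ, n = 0 := by
    intro n hn
    by_contra hn0
    obtain ⟨m', hm', h1⟩ := right_inv hH hi hn hn0
    rw [hcon m' hm', LinearMap.comp_zero] at h1
    obtain ⟨hnt, -⟩ := (irr_iff μ).1 hi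
    obtain ⟨u, hu⟩ := exists_ne (0 : U)
    exact hu (LinearMap.congr_fun h1 u).symm
  obtain ⟨K⟩ := exists_kit hH μ (rs H σ) hi
  rw [OccS_iff] at ho ho'
  obtain ⟨f, hf, hno⟩ := ho
  obtain ⟨f', hf', hno'⟩ := ho'
  rw [StS_iff] at hs
  have hT' : ∀ t ∈ T, ∀ y, σ t (K.ext (σ' := rs H σ) LinearMap.id y) =
      K.ext (σ' := rs H σ) LinearMap.id (σ t y) := fun t ht y => K.e_comm' hc σ ⟨t, ht⟩ y
  obtain ⟨c, β, hβ⟩ := hs (ind (T := T) σ σ K.e)
    (fun b v => (ind_hom σ σ K.e hT' b v).symm)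
  have hE : ∀ w, ind (T := T) σ σ K.e (f w) = f w := by
    have h1 := gen hτ h0 (ind (T := T) σ σ K.e ∘ₗ f - f) (by
      intro b u
      rw [LinearMap.sub_apply, LinearMap.comp_apply, ← hf, ind_hom σ σ K.e hT']
      have hfm : f ∈ MM (rs H τ) (rs H σ) := fun h w => (hf h w).symm
      have h3 := LinearMap.congr_fun (ind_comp hc.nor hi hT σ σ K LinearMap.id hT'
        ⟨f ∘ₗ m, comp_mem hm hfm⟩) u
      rw [LinearMap.comp_apply] at h3
      have h3' : ind (T := T) σ σ K.e (f (m u)) = f (m u) := h3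
      rw [h3', sub_self])
    intro w
    have h2 := LinearMap.congr_fun h1 w
    rw [LinearMap.sub_apply, LinearMap.comp_apply, LinearMap.zero_apply, sub_eq_zero] at h2
    exact h2
  have hE' : ∀ w, ind (T := T) σ σ K.e (f' w) = 0 := by
    intro w
    rw [ind_apply]
    refine Finset.sum_eq_zero fun q _ => ?_
    rw [hf', K.e_apply, Finset.sum_eq_zero, map_zero]
    intro i _
    have h1 : K.n i ∘ₗ f' ∈ MM (rs H τ') μ :=
      comp_mem (show f' ∈ MM (rs H τ') (rs H σ) from fun h w => (hf' h w).symm) (K.hn i)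
    have h2 := LinearMap.congr_fun (hN _ h1) (τ' (q.out)⁻¹ w)
    rw [LinearMap.comp_apply, LinearMap.zero_apply] at h2
    rw [h2, map_zero]
  have hc1 : c = 1 := by
    by_contra hc1
    apply hno
    have hc2 : (1 - c) ≠ 0 := sub_ne_zero.2 (Ne.symm hc1)
    refine ⟨(1 - c)⁻¹ • (β ∘ₗ f), fun w => ?_⟩
    have h1 := hβ (f w)
    rw [hE] at h1
    have h2 : (1 - c) • f w = ∑ b : B, σ b (β (σ b⁻¹ (f w))) := by
      rw [sub_smul, one_smul]
      exact sub_eq_of_eq_add' h1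
    have h3 : ∀ b : B, σ b (((1 - c)⁻¹ • (β ∘ₗ f)) (τ b⁻¹ w)) =
        (1 - c)⁻¹ • σ b (β (σ b⁻¹ (f w))) := by
      intro b
      rw [LinearMap.smul_apply, LinearMap.comp_apply, map_smul, hf]
    rw [Finset.sum_congr rfl fun b _ => h3 b, ← Finset.smul_sum, ← h2, smul_smul,
      inv_mul_cancel₀ hc2, one_smul]
  apply hno'
  refine ⟨-(β ∘ₗ f'), fun w => ?_⟩
  have h1 := hβ (f' w)
  rw [hE', hc1, one_smul] at h1
  have h3 : ∀ b : B, σ b ((-(β ∘ₗ f')) (τ' b⁻¹ w)) = - σ b (β (σ b⁻¹ (f' w))) := by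
    intro b
    rw [LinearMap.neg_apply, LinearMap.comp_apply, map_neg, hf']
  rw [Finset.sum_congr rfl fun b _ => h3 b, Finset.sum_neg_distrib]
  exact eq_neg_of_add_eq_zero_left h1.symm

/-- an isomorphism of the multiplicity spaces gives an isomorphism -/
theorem iso_back [Finite B] [IsAlgClosed F] [FiniteDimensional F U] [FiniteDimensional F W]
    (hH : (Nat.card H : F) ≠ 0)
    (hi : μ.IsIrreducible) (hc : Cpt μ μ') [(H.subgroupOf T).Normal]
    (hT : ∀ b : B, b ∈ T ↔ ∃ A : U ≃ₗ[F] U, ∀ (h h' : H) (u : U), b * h * b⁻¹ = h' →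
      A (μ h u) = μ h' (A u)) {τ : Representation F B W} (hτ : τ.IsIrreducible)
    {τ' : Representation F B Z} (hτ' : τ'.IsIrreducible)
    {m : U →ₗ[F] W} (hm : m ∈ MM μ (rs H τ)) (h0 : m ≠ 0)
    (hn : ¬ NonIso (RG hc τ) (RG hc τ')) : ¬ NonIso τ τ' := by
  letI := Fintype.ofFinite H
  letI := Fintype.ofFinite (B ⧸ T)
  rw [Nat.card_eq_fintype_card] at hH
  unfold NonIso at hn ⊢
  rw [not_not] at hn ⊢
  obtain ⟨e, he⟩ := hn
  obtain ⟨K⟩ := exists_kit hH μ (rs H τ) hi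
  have hf : ∀ t ∈ T, ∀ y, τ' t (K.ext e.toLinearMap y) = K.ext e.toLinearMap (τ t y) := by
    intro t ht y
    have h1 := K.conj_ext hc τ τ' e.toLinearMap ⟨t, ht⟩
    have h2 : RT hc τ' ⟨t, ht⟩ ∘ₗ e.toLinearMap ∘ₗ RT hc τ (⟨t, ht⟩ : T)⁻¹ = e.toLinearMap := by
      refine LinearMap.ext fun m => ?_
      rw [LinearMap.comp_apply, LinearMap.comp_apply]
      have h3 := he (QuotientGroup.mk ⟨t, ht⟩) (RT hc τ (⟨t, ht⟩ : T)⁻¹ m)
      rw [RG_mk, RG_mk, rinv2] at h3
      exact h3.symm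
    rw [h2] at h1
    have h3 := LinearMap.congr_fun h1 (τ t y)
    simp only [LinearMap.comp_apply] at h3
    rw [rinv1] at h3
    exact h3
  let g := ind (T := T) τ τ' (K.ext e.toLinearMap)
  have hg : ∀ (b : B) (w : W), g (τ b w) = τ' b (g w) := fun b w => ind_hom τ τ' _ hf b w
  have hg0 : g ≠ 0 := by
    intro h
    have h1 := ind_comp hc.nor hi hT τ τ' K e.toLinearMap hf ⟨m, hm⟩
    have h1' : g ∘ₗ m = (e ⟨m, hm⟩ : U →ₗ[F] Z) := h1
    rw [h, LinearMap.zero_comp] at h1'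
    have h2 : e ⟨m, hm⟩ = 0 := Subtype.ext h1'.symm
    rw [LinearEquiv.map_eq_zero_iff] at h2
    exact h0 (congrArg Subtype.val h2)
  have hk : LinearMap.ker g = ⊥ := by
    rcases ((irr_iff τ).1 hτ).2 (LinearMap.ker g) (by
      intro b v hv
      rw [LinearMap.mem_ker] at hv ⊢
      rw [hg, hv, map_zero]) with h3 | h3
    · exact h3
    · exact absurd (LinearMap.ker_eq_top.1 h3) hg0
  have hr : LinearMap.range g = ⊤ := by
    rcases ((irr_iff τ').1 hτ').2 (LinearMap.range g) (by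
      rintro b _ ⟨v, rfl⟩
      exact ⟨τ b v, hg b v⟩) with h3 | h3
    · exact absurd (LinearMap.range_eq_bot.1 h3) hg0
    · exact h3
  refine ⟨LinearEquiv.ofBijective g ⟨LinearMap.ker_eq_bot.1 hk, LinearMap.range_eq_top.1 hr⟩, ?_⟩
  intro b w
  exact hg b w

end irr

/-- the group theory -/
theorem grp (p : ℕ) {B : Type} [Group B] [Finite B] (Q P H T : Subgroup B) (h : LC p Q P H)
    (hHT : H ≤ T) [(H.subgroupOf T).Normal] :
    ∃ D : Subgroup (T ⧸ H.subgroupOf T), D.Normal ∧ IsCyclic D ∧ IsPGroup p D ∧ ¬ p ∣ D.index := by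
  have hcen : (H ⊔ P).Normal := by
    rw [← h.cen]
    haveI := h.nQ
    infer_instance
  have hsub : ((H ⊔ P).subgroupOf T).Normal := inferInstance
  have hD : (P.subgroupOf T).map (QuotientGroup.mk' (H.subgroupOf T)) =
      ((H ⊔ P).subgroupOf T).map (QuotientGroup.mk' (H.subgroupOf T)) := by
    apply le_antisymm
    · apply Subgroup.map_mono
      intro x hx
      exact Subgroup.mem_subgroupOf.2 (le_sup_right (a := H) (Subgroup.mem_subgroupOf.1 hx))
    · rintro _ ⟨x, hx, rfl⟩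
      have hx' : (x : B) ∈ H ⊔ P := hx
      haveI := h.nH
      rw [Subgroup.mem_sup_of_normal_left] at hx'
      obtain ⟨y, hy, z, hz, hyz⟩ := hx'
      have hzT : z ∈ T := by
        have : z = y⁻¹ * x := by rw [← hyz]; group
        rw [this]
        exact T.mul_mem (T.inv_mem (hHT hy)) x.2
      refine ⟨⟨z, hzT⟩, hz, ?_⟩
      have h1 : x = (⟨y, hHT hy⟩ : T) * ⟨z, hzT⟩ := Subtype.ext hyz.symm
      rw [h1, map_mul]
      have h2 : (QuotientGroup.mk' (H.subgroupOf T)) ⟨y, hHT hy⟩ = 1 :=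
        (QuotientGroup.eq_one_iff _).2 hy
      rw [h2, one_mul]
  have hsurj := QuotientGroup.mk'_surjective (H.subgroupOf T)
  refine ⟨(P.subgroupOf T).map (QuotientGroup.mk' (H.subgroupOf T)), ?_, ?_, ?_, ?_⟩
  · rw [hD]
    exact hsub.map _ hsurj
  · haveI : IsCyclic (P.subgroupOf T) := by
      haveI := h.cyc
      let j : P.subgroupOf T →* P :=
        { toFun := fun x => ⟨x.1.1, x.2⟩
          map_one' := rfl
          map_mul' := fun _ _ => rfl }
      refine isCyclic_of_injective j ?_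
      intro x y hxy
      have h5 : ((j x : P) : B) = (j y : P) := by rw [hxy]
      exact Subtype.ext (Subtype.ext h5)
    exact isCyclic_of_surjective _ (MonoidHom.subgroupMap_surjective
      (QuotientGroup.mk' (H.subgroupOf T)) (P.subgroupOf T))
  · apply IsPGroup.map
    exact h.pP.comap_of_injective T.subtype T.subtype_injective
  · rw [hD]
    intro hp
    apply h.idx
    refine hp.trans ((Subgroup.index_map_dvd _ hsurj).trans ?_)
    exact Subgroup.relIndex_dvd_index_of_normal _ _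

theorem t_E3 (e2 : E2) (e4 : E4) : E3 := by
  intro p _ F _ _ _ B _ _ Q P H hLC V W W' _ _ _ _ _ _ _ _ _ σ τ τ' hs hτ hτ' ho ho'
  haveI := hLC.nH
  have hH : (Nat.card H : F) ≠ 0 := by
    intro h
    exact hLC.cH ((CharP.cast_eq_zero_iff F p _).1 h)
  haveI : Nontrivial W := ((irr_iff τ).1 hτ).1
  obtain ⟨U, μ, hμ, hm⟩ := exists_irr (rs H τ)
  have h0 : U.subtype ≠ 0 := by
    intro h
    haveI := ((irr_iff μ).1 hμ).1
    obtain ⟨u, hu⟩ := exists_ne (0 : U)
    exact hu (Subtype.ext (LinearMap.congr_fun h u))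
  obtain ⟨T, μ', hT, hext⟩ := e4 p F B Q P H hLC U μ hμ
  have hHT : H ≤ T := by
    intro b hb
    rw [hT]
    refine ⟨LinearEquiv.ofLinearMap (μ ⟨b, hb⟩) (μ (⟨b, hb⟩ : H)⁻¹) ?_ ?_, ?_⟩
    · ext u
      rw [LinearMap.comp_apply, rinv2]
      rfl
    · ext u
      rw [LinearMap.comp_apply, rinv1]
      rfl
    · intro h h' u e
      show μ ⟨b, hb⟩ (μ h u) = μ h' (μ ⟨b, hb⟩ u)
      rw [← rmul, ← rmul]
      congr 2
      apply Subtype.ext
      show b * h = h' * b
      rw [← e, inv_mul_cancel_right]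
  have hc : Cpt μ μ' := ⟨hLC.nH, hHT, hext⟩
  haveI : (H.subgroupOf T).Normal := inferInstance
  obtain ⟨D, hD1, hD2, hD3, hD4⟩ := grp p Q P H T hLC hHT
  letI := Fintype.ofFinite H
  have hHf : (Fintype.card H : F) ≠ 0 := by
    rw [← Nat.card_eq_fintype_card]
    exact hH
  obtain ⟨K⟩ := exists_kit hHf μ (rs H τ) hμ
  obtain ⟨K'⟩ := exists_kit hHf μ (rs H τ') hμ
  obtain ⟨m', hm', h0'⟩ := MM_ne hH hμ hc hT hs hτ ho ho' hm h0
  have hfin := e2 p F (T ⧸ H.subgroupOf T) D hD1 hD2 hD3 hD4 (MM μ (rs H σ)) (MM μ (rs H τ))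
    (MM μ (rs H τ')) (RG hc σ) (RG hc τ) (RG hc τ') (StS_transfer hH hμ hc hT σ hs)
    (RG_irr hH hμ hc hT hτ hm h0) (RG_irr hH hμ hc hT hτ' hm' h0')
    (Occ_transfer hH hc σ τ K (fun w => ind_one hμ hc hT hτ K hm h0 w) ho)
    (Occ_transfer hH hc σ τ' K' (fun w => ind_one hμ hc hT hτ' K' hm' h0' w) ho')
  exact iso_back hH hμ hc hT hτ hτ' hm h0 hfin

end Pool.Agent.K3h3.CY
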